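import Pool.Agent.H21.ASY.Stmts

/-!
# ASY, module MOB: Moebius inversion of a function of the excess
-/

set_option autoImplicit false

namespace Pool.ASY

open Finset Pool.Agent.H98.ABCR Pool.SHA
open scoped ArithmeticFunction.Moebius

namespace MOB25

/-- divisors of `p * m`, `p` not dividing `m` -/
theorem div_pm {p m : ℕ} (hp : p.Prime) (hpm : ¬ p ∣ m) :
    (p * m).divisors = m.divisors ∪ m.divisors.image (fun i => p * i) := by
  have hm0 : m ≠ 0 := by
    rintro rfl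
    exact hpm (dvd_zero p)
  ext j
  rw [mem_union, mem_image, Nat.mem_divisors, Nat.mem_divisors]
  constructor
  · rintro ⟨h1, _⟩
    by_cases hj : p ∣ j
    · obtain ⟨i, rfl⟩ := hj
      exact Or.inr ⟨i, Nat.mem_divisors.2 ⟨Nat.dvd_of_mul_dvd_mul_left hp.pos h1, hm0⟩, rfl⟩
    · have hc : j.Coprime p := ((hp.coprime_iff_not_dvd).2 hj).symm
      exact Or.inl ⟨hc.dvd_of_dvd_mul_left h1, hm0⟩
  · rintro (⟨h1, _⟩ | ⟨i, hi, rfl⟩)
    · exact ⟨h1.mul_left p, mul_ne_zero hp.ne_zero hm0⟩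
    · exact ⟨Nat.mul_dvd_mul_left p (Nat.mem_divisors.1 hi).1, mul_ne_zero hp.ne_zero hm0⟩

theorem zero_of (hE : S_EXC) (g : ℕ → ℝ) {p m : ℕ} (hp : p.Prime) (hpm : ¬ p ∣ m) :
    ∑ j ∈ (p * m).divisors, (μ (p * m / j) : ℝ) * g (exc j) = 0 := by
  obtain ⟨_, _, hmul, hpp, _, _⟩ := hE
  have hm0 : m ≠ 0 := by
    rintro rfl
    exact hpm (dvd_zero p)
  have hep : exc p = 1 := by
    have := hpp p 0 hp
    simpa using this
  have hdisj : Disjoint m.divisors (m.divisors.image (fun i => p * i)) := by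
    rw [Finset.disjoint_left]
    intro j hj hj2
    obtain ⟨i, _, rfl⟩ := mem_image.1 hj2
    exact hpm ((dvd_mul_right p i).trans (Nat.mem_divisors.1 hj).1)
  rw [div_pm hp hpm, sum_union hdisj, sum_image (fun a _ b _ h => Nat.eq_of_mul_eq_mul_left hp.pos h),
    ← sum_add_distrib]
  refine sum_eq_zero fun j hj => ?_
  have hjm := (Nat.mem_divisors.1 hj).1
  have hc1 : p.Coprime (m / j) := (hp.coprime_iff_not_dvd).2 fun h =>
    hpm (h.trans (Nat.div_dvd_of_dvd hjm))
  have hc2 : p.Coprime j := (hp.coprime_iff_not_dvd).2 fun h => hpm (h.trans hjm)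
  have h1 : μ (p * m / j) = - μ (m / j) := by
    rw [Nat.mul_div_assoc p hjm,
      ArithmeticFunction.isMultiplicative_moebius.map_mul_of_coprime hc1,
      ArithmeticFunction.moebius_apply_prime hp]
    ring
  rw [h1, Nat.mul_div_mul_left _ _ hp.pos, hmul p j hc2, hep, one_mul]
  push_cast
  ring

end MOB25

open MOB25 in
theorem mob_thm (hE : S_EXC) : S_MOB := by
  intro g n hn
  have h1 := (ArithmeticFunction.sum_eq_iff_sum_mul_moebius_eq
    (f := fun d => ∑ j ∈ d.divisors, (μ (d / j) : ℝ) * g (exc j))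
    (g := fun j => g (exc j))).2 (fun d _ =>
      Nat.sum_divisorsAntidiagonal' (fun a b => (μ a : ℝ) * g (exc b))) n hn
  have h2 : ∑ d ∈ n.divisors.filter Sqf, ∑ j ∈ d.divisors, (μ (d / j) : ℝ) * g (exc j) =
      ∑ d ∈ n.divisors, ∑ j ∈ d.divisors, (μ (d / j) : ℝ) * g (exc j) := by
    refine sum_filter_of_ne fun d hd hne => ?_
    have hd0 : 0 < d := Nat.pos_of_mem_divisors hd
    refine ⟨hd0, fun p hp hpd => ?_⟩
    by_contra h3
    obtain ⟨m, rfl⟩ := hpd
    refine hne (zero_of hE g hp fun hpm => h3 ?_)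
    rw [pow_two]
    exact Nat.mul_dvd_mul_left p hpm
  rw [h2]
  exact h1.symm

end Pool.ASY
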